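import Mathlib

open Polynomial

namespace Pool.Agent.V11186.Fermat

/-- algebraic through a ring homomorphism -/
def AlgR {A S : Type} [CommRing A] [CommRing S] (j : A →+* S) (s : S) : Prop :=
  ∃ P : A[X], P ≠ 0 ∧ P.eval₂ j s = 0

theorem AlgR.down {A B S : Type} [CommRing A] [CommRing B] [CommRing S] [IsDomain A] [IsDomain B]
    [IsDomain S] (i : A →+* B) (j : B →+* S) (hi : ∀ b, AlgR i b) {s : S} (h : AlgR j s) :
    AlgR (j.comp i) s := by
  letI := i.toAlgebra
  letI := j.toAlgebra
  letI := (j.comp i).toAlgebra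
  haveI : IsScalarTower A B S := IsScalarTower.of_algebraMap_eq (fun _ => rfl)
  haveI : Algebra.IsAlgebraic A B := ⟨fun b => hi b⟩
  have h' : IsAlgebraic B s := h
  exact IsAlgebraic.restrictScalars A h'

theorem AlgR.map {A A' S S' : Type} [CommRing A] [CommRing A'] [CommRing S] [CommRing S']
    {j : A →+* S} {j' : A' →+* S'} (f : A →+* A') (g : S →+* S') (hf : Function.Injective f)
    (hc : j'.comp f = g.comp j) {s : S} (h : AlgR j s) : AlgR j' (g s) := by
  obtain ⟨P, h1, h2⟩ := h
  refine ⟨P.map f, (Polynomial.map_ne_zero_iff hf).2 h1, ?_⟩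
  rw [Polynomial.eval₂_map, hc, ← Polynomial.hom_eval₂, h2, map_zero]

theorem AlgR.of_inj {A S S' : Type} [CommRing A] [CommRing S] [CommRing S']
    {j : A →+* S} (g : S →+* S') (hg : Function.Injective g) {s : S} (h : AlgR (g.comp j) (g s)) :
    AlgR j s := by
  obtain ⟨P, h1, h2⟩ := h
  refine ⟨P, h1, hg ?_⟩
  rw [Polynomial.hom_eval₂, h2, map_zero]

section ops
variable {A S : Type} [CommRing A] [CommRing S] [IsDomain A] [IsDomain S] {j : A →+* S}

theorem AlgR.add {s t : S} (hs : AlgR j s) (ht : AlgR j t) : AlgR j (s + t) := by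
  letI := j.toAlgebra
  have hs' : IsAlgebraic A s := hs
  have ht' : IsAlgebraic A t := ht
  exact hs'.add ht'

theorem AlgR.mul {s t : S} (hs : AlgR j s) (ht : AlgR j t) : AlgR j (s * t) := by
  letI := j.toAlgebra
  have hs' : IsAlgebraic A s := hs
  have ht' : IsAlgebraic A t := ht
  exact hs'.mul ht'

theorem AlgR.of_mul {s t : S} (h0 : s ≠ 0) (hs : AlgR j s) (ht : AlgR j (s * t)) : AlgR j t := by
  letI := j.toAlgebra
  have hs' : IsAlgebraic A s := hs
  have ht' : IsAlgebraic A (s * t) := ht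
  exact IsAlgebraic.of_mul (mem_nonZeroDivisors_of_ne_zero h0) hs' ht'

theorem AlgR.base (a : A) : AlgR j (j a) := by
  refine ⟨X - C a, X_sub_C_ne_zero a, ?_⟩
  simp

theorem AlgR.sum {ι : Type} (I : Finset ι) (f : ι → S) (h : ∀ i ∈ I, AlgR j (f i)) :
    AlgR j (∑ i ∈ I, f i) := by
  classical
  induction I using Finset.induction_on with
  | empty => simpa using AlgR.base (j := j) (0 : A)
  | insert a s ha ih =>
    rw [Finset.sum_insert ha]
    exact (h a (Finset.mem_insert_self _ _)).add (ih (fun i hi => h i (Finset.mem_insert_of_mem hi)))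

theorem AlgR.eval₂ {s : S} (hs : AlgR j s) (P : A[X]) : AlgR j (P.eval₂ j s) := by
  induction P using Polynomial.induction_on' with
  | add p q hp hq => rw [Polynomial.eval₂_add]; exact hp.add hq
  | monomial n a =>
    rw [Polynomial.eval₂_monomial]
    refine (AlgR.base a).mul ?_
    induction n with
    | zero => simpa using AlgR.base (j := j) (1 : A)
    | succ n ih => rw [pow_succ]; exact ih.mul hs

end ops

/-- coercion of polynomials to power series -/
noncomputable abbrev cc (L : Type) [CommRing L] : L[X] →+* PowerSeries L :=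
  Polynomial.coeToPowerSeries.ringHom

theorem cc_apply {L : Type} [CommRing L] (p : L[X]) : cc L p = (p : PowerSeries L) := rfl

theorem cc_inj (L : Type) [CommRing L] : Function.Injective (cc L) := Polynomial.coe_injective L

/-! ### expansion -/

theorem coe_expand' {L : Type} [CommRing L] (q : ℕ) (hq : q ≠ 0) :
    (cc L).comp (Polynomial.expand L q).toRingHom
      = (PowerSeries.expand q hq).toRingHom.comp (cc L) := by
  ext p n
  · simp [cc_apply, Polynomial.expand_C]
    rw [PowerSeries.expand_C]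
  · simp [cc_apply]

theorem expand_integral {L : Type} [Field L] (q : ℕ) (hq : q ≠ 0) (b : L[X]) :
    AlgR (Polynomial.expand L q).toRingHom b := by
  have hinj : Function.Injective (Polynomial.expand L q).toRingHom :=
    Polynomial.expand_injective (Nat.pos_of_ne_zero hq)
  have key : (Polynomial.expand L q).toRingHom.IsIntegralElem b := by
    induction b using Polynomial.induction_on' with
    | add p r hp hr => exact RingHom.IsIntegralElem.add _ hp hr
    | monomial n a =>
      rw [← Polynomial.C_mul_X_pow_eq_monomial]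
      refine RingHom.IsIntegralElem.mul _ ?_ ?_
      · have : C a = (Polynomial.expand L q).toRingHom (C a) := by simp
        rw [this]
        exact RingHom.isIntegralElem_map _
      · induction n with
        | zero =>
          rw [pow_zero]
          exact RingHom.isIntegralElem_one _
        | succ n ih =>
          rw [pow_succ]
          refine RingHom.IsIntegralElem.mul _ ih ?_
          refine ⟨X ^ q - C X, monic_X_pow_sub_C _ hq, ?_⟩
          simp
  obtain ⟨P, hP, h⟩ := key
  exact ⟨P, hP.ne_zero, h⟩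

theorem psexpand_inj {L : Type} [CommRing L] (q : ℕ) (hq : q ≠ 0) :
    Function.Injective (PowerSeries.expand (R := L) q hq).toRingHom := by
  intro f g h
  ext n
  have := congrArg (PowerSeries.coeff (q * n)) h
  simpa using this

theorem AlgR.expand {L : Type} [Field L] {q : ℕ} (hq : q ≠ 0) {g : PowerSeries L}
    (h : AlgR (cc L) g) : AlgR (cc L) (PowerSeries.expand q hq g) := by
  exact AlgR.map (j := cc L) (j' := cc L) (Polynomial.expand L q).toRingHom
    (PowerSeries.expand q hq).toRingHom (Polynomial.expand_injective (Nat.pos_of_ne_zero hq))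
    (coe_expand' q hq) h

theorem AlgR.of_expand {L : Type} [Field L] {q : ℕ} (hq : q ≠ 0) {g : PowerSeries L}
    (h : AlgR (cc L) (PowerSeries.expand q hq g)) : AlgR (cc L) g := by
  have h1 := AlgR.down (Polynomial.expand L q).toRingHom (cc L) (expand_integral q hq) h
  rw [coe_expand' q hq] at h1
  exact AlgR.of_inj _ (psexpand_inj q hq) h1

/-! ### derivative -/

theorem deriv_eval₂ {L : Type} [Field L] (f : PowerSeries L) (P : L[X][X]) :
    ∃ Q : L[X][X], PowerSeries.derivative L (P.eval₂ (cc L) f)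
      = Q.eval₂ (cc L) f + (Polynomial.derivative P).eval₂ (cc L) f * PowerSeries.derivative L f := by
  induction P using Polynomial.induction_on' with
  | add p q hp hq =>
    obtain ⟨Q1, h1⟩ := hp
    obtain ⟨Q2, h2⟩ := hq
    refine ⟨Q1 + Q2, ?_⟩
    rw [Polynomial.eval₂_add, map_add, h1, h2, Polynomial.eval₂_add, map_add, Polynomial.eval₂_add]
    ring
  | monomial n a =>
    refine ⟨monomial n (Polynomial.derivative a), ?_⟩
    rw [Polynomial.eval₂_monomial, Polynomial.eval₂_monomial, Polynomial.derivative_monomial,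
      Polynomial.eval₂_monomial, Derivation.leibniz, PowerSeries.derivative_pow, map_mul,
      map_natCast, cc_apply, cc_apply, PowerSeries.derivative_coe]
    simp only [smul_eq_mul]
    ring

theorem AlgR.deriv {L : Type} [Field L] [CharZero L] {f : PowerSeries L} (h : AlgR (cc L) f) :
    AlgR (cc L) (PowerSeries.derivative L f) := by
  classical
  have hex : ∃ n : ℕ, ∃ P : L[X][X], P ≠ 0 ∧ P.eval₂ (cc L) f = 0 ∧ P.natDegree = n := by
    obtain ⟨P, h1, h2⟩ := h
    exact ⟨P.natDegree, P, h1, h2, rfl⟩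
  obtain ⟨P, hP0, hP, hdeg⟩ := Nat.find_spec hex
  have hmin : ∀ R : L[X][X], R ≠ 0 → R.natDegree < P.natDegree → R.eval₂ (cc L) f ≠ 0 := by
    intro R hR hlt h0
    rw [hdeg] at hlt
    exact Nat.find_min hex hlt ⟨R, hR, h0, rfl⟩
  have hpos : P.natDegree ≠ 0 := by
    intro h0
    rw [Polynomial.natDegree_eq_zero] at h0
    obtain ⟨a, rfl⟩ := h0
    rw [Polynomial.eval₂_C] at hP
    have : a = 0 := cc_inj L (by rw [hP, map_zero])
    exact hP0 (by rw [this, map_zero])
  have hd0 : Polynomial.derivative P ≠ 0 := by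
    intro h0
    exact hpos (Polynomial.derivative_eq_zero.1 h0)
  have hs : (Polynomial.derivative P).eval₂ (cc L) f ≠ 0 :=
    hmin _ hd0 (Polynomial.natDegree_derivative_lt hpos)
  obtain ⟨Q, hQ⟩ := deriv_eval₂ f P
  rw [hP, map_zero] at hQ
  refine AlgR.of_mul hs (AlgR.eval₂ h _) ?_
  have : (Polynomial.derivative P).eval₂ (cc L) f * PowerSeries.derivative L f
      = (-Q).eval₂ (cc L) f := by
    rw [Polynomial.eval₂_neg]
    exact (neg_eq_of_add_eq_zero_right hQ.symm).symm
  rw [this]
  exact AlgR.eval₂ h _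

/-! ### sections -/

/-- keep only the coefficients with index divisible by `q` -/
noncomputable def sec0 {L : Type} [CommRing L] (q : ℕ) (f : PowerSeries L) : PowerSeries L :=
  PowerSeries.mk (fun n => if q ∣ n then PowerSeries.coeff n f else 0)

theorem sec0_eq {L : Type} [Field L] [CharZero L] {q : ℕ} (hq : 0 < q) {ζ : L}
    (hζ : IsPrimitiveRoot ζ q) (f : PowerSeries L) :
    sec0 q f = ∑ j ∈ Finset.range q, (cc L (C (q : L)⁻¹)) * PowerSeries.rescale (ζ ^ j) f := by
  ext n
  have hq0 : (q : L) ≠ 0 := Nat.cast_ne_zero.2 hq.ne'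
  rw [map_sum]
  have : ∀ j, PowerSeries.coeff n (cc L (C (q : L)⁻¹) * PowerSeries.rescale (ζ ^ j) f)
      = (ζ ^ n) ^ j * ((q : L)⁻¹ * PowerSeries.coeff n f) := by
    intro j
    rw [cc_apply, Polynomial.coe_C, PowerSeries.coeff_C_mul, PowerSeries.coeff_rescale]
    ring
  simp only [this]
  rw [← Finset.sum_mul, sec0, PowerSeries.coeff_mk]
  by_cases hd : q ∣ n
  · rw [if_pos hd, (hζ.pow_eq_one_iff_dvd n).2 hd]
    simp [hq0]
  · rw [if_neg hd]
    have h1 : ζ ^ n ≠ 1 := fun h => hd ((hζ.pow_eq_one_iff_dvd n).1 h)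
    rw [geom_sum_eq h1, ← pow_mul, mul_comm n q, pow_mul, hζ.pow_eq_one, one_pow, sub_self,
      zero_div, zero_mul]

theorem coe_rescale' {L : Type} [CommRing L] (a : L) :
    (cc L).comp (Polynomial.compRingHom (C a * X))
      = (PowerSeries.rescale a).comp (cc L) := by
  ext p n
  · simp only [cc_apply, RingHom.comp_apply, Polynomial.coe_compRingHom, Polynomial.C_comp,
      Polynomial.coe_C, PowerSeries.coeff_rescale, PowerSeries.coeff_C,
      Polynomial.coeToPowerSeries.ringHom_apply]
    split_ifs with h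
    · rw [h]; simp
    · simp
  · simp [cc_apply]

theorem compRingHom_inj {L : Type} [Field L] {a : L} (ha : a ≠ 0) :
    Function.Injective (Polynomial.compRingHom (C a * X) : L[X] →+* L[X]) := by
  rw [injective_iff_map_eq_zero]
  intro p hp
  have h1 : (p.comp (C a * X)) = 0 := hp
  have h2 : (p.comp (C a * X)).comp (C a⁻¹ * X) = p := by
    rw [Polynomial.comp_assoc]
    have : (C a * X : L[X]).comp (C a⁻¹ * X) = X := by
      simp only [Polynomial.mul_comp, Polynomial.C_comp, Polynomial.X_comp]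
      rw [← mul_assoc, ← C_mul, mul_inv_cancel₀ ha, C_1, one_mul]
    rw [this, Polynomial.comp_X]
  rw [← h2, h1, Polynomial.zero_comp]

theorem AlgR.rescale {L : Type} [Field L] {a : L} (ha : a ≠ 0) {g : PowerSeries L}
    (h : AlgR (cc L) g) : AlgR (cc L) (PowerSeries.rescale a g) :=
  AlgR.map (j := cc L) (j' := cc L) _ (PowerSeries.rescale a) (compRingHom_inj ha)
    (coe_rescale' a) h

theorem coe_map' {K L : Type} [CommRing K] [CommRing L] (f : K →+* L) :
    (cc L).comp (Polynomial.mapRingHom f) = (PowerSeries.map f).comp (cc K) := by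
  ext p n
  · simp [cc_apply]
  · simp [cc_apply]

theorem psmap_inj {K L : Type} [Field K] [Field L] (f : K →+* L) :
    Function.Injective (PowerSeries.map f) := by
  intro g h hgh
  ext n
  have := congrArg (PowerSeries.coeff n) hgh
  simp only [PowerSeries.coeff_map] at this
  exact f.injective this

theorem map_sec0 {K L : Type} [CommRing K] [CommRing L] (φ : K →+* L) (q : ℕ) (f : PowerSeries K) :
    PowerSeries.map φ (sec0 q f) = sec0 q (PowerSeries.map φ f) := by
  ext n
  simp only [sec0, PowerSeries.coeff_map, PowerSeries.coeff_mk]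
  split_ifs <;> simp

theorem exists_field {q : ℕ} (hq : 0 < q) : ∃ (L : Type) (_ : Field L) (_ : Algebra ℚ L)
    (_ : Algebra.IsAlgebraic ℚ L) (_ : CharZero L), ∃ ζ : L, IsPrimitiveRoot ζ q := by
  haveI : NeZero ((q : ℕ) : AlgebraicClosure ℚ) := ⟨Nat.cast_ne_zero.2 hq.ne'⟩
  obtain ⟨ζ, hζ⟩ := IsAlgClosed.exists_root (Polynomial.cyclotomic q (AlgebraicClosure ℚ))
    (Polynomial.degree_cyclotomic_pos q _ hq).ne'
  exact ⟨AlgebraicClosure ℚ, _, _, AlgebraicClosure.isAlgebraic ℚ, inferInstance, ζ,
    Polynomial.isRoot_cyclotomic_iff.1 hζ⟩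

theorem AlgR.sec0 {q : ℕ} (hq : 0 < q) {f : PowerSeries ℚ} (h : AlgR (cc ℚ) f) :
    AlgR (cc ℚ) (sec0 q f) := by
  obtain ⟨L, i1, i2, i3, i4, ζ, hζ⟩ := exists_field hq
  have hζ0 : ζ ≠ 0 := hζ.ne_zero hq.ne'
  let φ : ℚ →+* L := algebraMap ℚ L
  have h1 : AlgR (cc L) (PowerSeries.map φ f) :=
    AlgR.map (j := cc ℚ) (j' := cc L) (Polynomial.mapRingHom φ) (PowerSeries.map φ)
      (Polynomial.map_injective φ φ.injective) (coe_map' φ) h
  have h2 : AlgR (cc L) (PowerSeries.map φ (Fermat.sec0 q f)) := by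
    rw [map_sec0, sec0_eq hq hζ]
    refine AlgR.sum _ _ (fun j _ => ?_)
    exact (AlgR.base _).mul (h1.rescale (pow_ne_zero _ hζ0))
  have h3 := AlgR.down (Polynomial.mapRingHom φ) (cc L) (fun b => by
    letI := Polynomial.algebra ℚ L
    have := Algebra.IsAlgebraic.isAlgebraic (R := ℚ[X]) (A := L[X]) b
    exact this) h2
  rw [coe_map' φ] at h3
  exact AlgR.of_inj _ (psmap_inj φ) h3

/-! ### rational series -/

/-- rational power series -/
def RatR {L : Type} [CommRing L] (f : PowerSeries L) : Prop :=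
  ∃ p q : L[X], q ≠ 0 ∧ cc L q * f = cc L p

theorem RatR.add {L : Type} [Field L] {f g : PowerSeries L} (hf : RatR f) (hg : RatR g) :
    RatR (f + g) := by
  obtain ⟨p, q, hq, h⟩ := hf
  obtain ⟨p', q', hq', h'⟩ := hg
  refine ⟨q' * p + q * p', q * q', mul_ne_zero hq hq', ?_⟩
  rw [map_add, map_mul, map_mul, map_mul, ← h, ← h']
  ring

theorem RatR.poly {L : Type} [Field L] (p : L[X]) : RatR (cc L p) :=
  ⟨p, 1, one_ne_zero, by rw [map_one, one_mul]⟩

theorem RatR.mul {L : Type} [Field L] {f g : PowerSeries L} (hf : RatR f) (hg : RatR g) :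
    RatR (f * g) := by
  obtain ⟨p, q, hq, h⟩ := hf
  obtain ⟨p', q', hq', h'⟩ := hg
  refine ⟨p * p', q * q', mul_ne_zero hq hq', ?_⟩
  rw [map_mul, map_mul, ← h, ← h']
  ring

theorem RatR.sum {L : Type} [Field L] {ι : Type} (I : Finset ι) (f : ι → PowerSeries L)
    (h : ∀ i ∈ I, RatR (f i)) : RatR (∑ i ∈ I, f i) := by
  classical
  induction I using Finset.induction_on with
  | empty => simpa using RatR.poly (L := L) 0
  | insert a s ha ih =>
    rw [Finset.sum_insert ha]
    exact (h a (Finset.mem_insert_self _ _)).add (ih (fun i hi => h i (Finset.mem_insert_of_mem hi)))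

theorem RatR.deriv {L : Type} [Field L] {f : PowerSeries L} (hf : RatR f) :
    RatR (PowerSeries.derivative L f) := by
  obtain ⟨p, q, hq, h⟩ := hf
  refine ⟨q * Polynomial.derivative p - Polynomial.derivative q * p, q * q, mul_ne_zero hq hq, ?_⟩
  have h1 := congrArg (PowerSeries.derivative L) h
  rw [Derivation.leibniz, cc_apply, cc_apply, PowerSeries.derivative_coe,
    PowerSeries.derivative_coe] at h1
  simp only [smul_eq_mul] at h1
  rw [map_sub, map_mul, map_mul, map_mul, ← h]
  simp only [cc_apply]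
  rw [← h1]
  ring

theorem RatR.rescale {L : Type} [Field L] {a : L} (ha : a ≠ 0) {f : PowerSeries L}
    (hf : RatR f) : RatR (PowerSeries.rescale a f) := by
  obtain ⟨p, q, hq, h⟩ := hf
  refine ⟨Polynomial.compRingHom (C a * X) p, Polynomial.compRingHom (C a * X) q,
    fun h0 => hq (compRingHom_inj ha (by rw [h0, map_zero])), ?_⟩
  have h1 := fun r => congrArg (fun φ => φ r) (coe_rescale' (L := L) a)
  simp only [RingHom.comp_apply] at h1
  rw [h1, h1, ← h, map_mul]

theorem RatR.map {K L : Type} [Field K] [Field L] (φ : K →+* L) {f : PowerSeries K}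
    (hf : RatR f) : RatR (PowerSeries.map φ f) := by
  obtain ⟨p, q, hq, h⟩ := hf
  refine ⟨p.map φ, q.map φ, (Polynomial.map_ne_zero_iff φ.injective).2 hq, ?_⟩
  have h1 := fun r => congrArg (fun ψ => ψ r) (coe_map' (K := K) (L := L) φ)
  simp only [RingHom.comp_apply, Polynomial.coe_mapRingHom] at h1
  rw [h1, h1, ← h, map_mul]

theorem RatR.descend {L : Type} [Field L] [Algebra ℚ L] {f : PowerSeries ℚ}
    (hf : RatR (PowerSeries.map (algebraMap ℚ L) f)) : RatR f := by
  obtain ⟨p, q, hq, h⟩ := hf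
  obtain ⟨i, hi⟩ : ∃ i, q.coeff i ≠ 0 := by
    by_contra hcon
    push Not at hcon
    exact hq (Polynomial.ext (by simpa using hcon))
  obtain ⟨φ, hφ⟩ : ∃ φ : Module.Dual ℚ L, φ (q.coeff i) ≠ 0 := by
    by_contra hcon
    push Not at hcon
    exact hi ((Module.forall_dual_apply_eq_zero_iff ℚ _).1 hcon)
  let red : L[X] → ℚ[X] := fun r => ∑ k ∈ Finset.range (r.natDegree + 1), monomial k (φ (r.coeff k))
  have hred : ∀ r n, (red r).coeff n = φ (r.coeff n) := by
    intro r n
    simp only [red, Polynomial.finsetSum_coeff, Polynomial.coeff_monomial]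
    rw [Finset.sum_ite_eq']
    split_ifs with hn
    · rfl
    · rw [Finset.mem_range, not_lt] at hn
      rw [Polynomial.coeff_eq_zero_of_natDegree_lt (by omega), map_zero]
  refine ⟨red p, red q, fun h0 => hφ ?_, ?_⟩
  · rw [← hred, h0, Polynomial.coeff_zero]
  · ext n
    have h1 := congrArg (fun s => φ (PowerSeries.coeff n s)) h
    simp only [PowerSeries.coeff_mul, cc_apply, Polynomial.coeff_coe, PowerSeries.coeff_map,
      map_sum] at h1
    simp only [PowerSeries.coeff_mul, cc_apply, Polynomial.coeff_coe, hred]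
    rw [← h1]
    refine Finset.sum_congr rfl (fun x _ => ?_)
    rw [mul_comm (q.coeff x.1), ← Algebra.smul_def, map_smul, smul_eq_mul, mul_comm]

theorem RatR.sec0 {q : ℕ} (hq : 0 < q) {f : PowerSeries ℚ} (h : RatR f) :
    RatR (sec0 q f) := by
  obtain ⟨L, i1, i2, i3, i4, ζ, hζ⟩ := exists_field hq
  have hζ0 : ζ ≠ 0 := hζ.ne_zero hq.ne'
  refine RatR.descend (L := L) ?_
  rw [map_sec0, sec0_eq hq hζ]
  exact RatR.sum _ _ (fun j _ => (RatR.poly _).mul ((h.map _).rescale (pow_ne_zero _ hζ0)))

theorem RatR.alg {L : Type} [Field L] {f : PowerSeries L} (hf : RatR f) : AlgR (cc L) f := by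
  obtain ⟨p, q, hq, h⟩ := hf
  refine AlgR.of_mul (s := cc L q) (fun h0 => hq (cc_inj L (by rw [h0, map_zero]))) (AlgR.base q) ?_
  rw [h]
  exact AlgR.base p

end Pool.Agent.V11186.Fermat
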