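import Pool.Agent.V11186.Fermat.Clos

open Polynomial

namespace Pool.Agent.V11186.Fermat

/-- A power series with integer coefficients, seen as a power series with rational
coefficients. -/
noncomputable def toQ (f : PowerSeries ℤ) : PowerSeries ℚ :=
  PowerSeries.map (Int.castRingHom ℚ) f

/-- The integer power series `f` is algebraic over `ℚ(x)`: it is a root of a nonzero polynomial
with coefficients in `ℚ[x]`. -/
def IsAlg (f : PowerSeries ℤ) : Prop :=
  ∃ P : ℚ[X][X], P ≠ 0 ∧ P.eval₂ Polynomial.coeToPowerSeries.ringHom (toQ f) = 0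

/-- The integer power series `f` is the expansion of an element of `ℚ(x)`. -/
def IsRat (f : PowerSeries ℤ) : Prop :=
  ∃ p q : ℚ[X], q ≠ 0 ∧ (q : PowerSeries ℚ) * toQ f = (p : PowerSeries ℚ)

/-- `f(x) ↦ x f'(x)`. -/
noncomputable def theta (f : PowerSeries ℤ) : PowerSeries ℤ :=
  PowerSeries.X * PowerSeries.derivative ℤ f

/-- `U(x) ↦ U(x ^ M)`. -/
noncomputable def dil (M : ℕ) (U : PowerSeries ℤ) : PowerSeries ℤ :=
  PowerSeries.mk (fun n => if M ∣ n then PowerSeries.coeff (n / M) U else 0)

theorem toQ_add (f g : PowerSeries ℤ) : toQ (f + g) = toQ f + toQ g := map_add _ _ _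
theorem toQ_neg (f : PowerSeries ℤ) : toQ (-f) = -toQ f := map_neg _ _
theorem toQ_mul (f g : PowerSeries ℤ) : toQ (f * g) = toQ f * toQ g := map_mul _ _ _
theorem coeff_toQ (f : PowerSeries ℤ) (n : ℕ) :
    PowerSeries.coeff n (toQ f) = ((PowerSeries.coeff n f : ℤ) : ℚ) := by
  simp [toQ]
theorem toQ_inj : Function.Injective toQ := by
  intro f g h
  ext n
  have := congrArg (PowerSeries.coeff n) h
  rw [coeff_toQ, coeff_toQ] at this
  exact_mod_cast this

theorem coeff_theta (f : PowerSeries ℤ) (n : ℕ) :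
    PowerSeries.coeff n (theta f) = n * PowerSeries.coeff n f := by
  unfold theta
  cases n with
  | zero => simp
  | succ n =>
    rw [PowerSeries.coeff_succ_X_mul, PowerSeries.coeff_derivative]
    push_cast
    ring

theorem coeff_dil (M : ℕ) (U : PowerSeries ℤ) (n : ℕ) :
    PowerSeries.coeff n (dil M U) = if M ∣ n then PowerSeries.coeff (n / M) U else 0 := by
  simp [dil]

theorem isAlg_iff (f : PowerSeries ℤ) : IsAlg f ↔ AlgR (cc ℚ) (toQ f) := Iff.rfl
theorem isRat_iff (f : PowerSeries ℤ) : IsRat f ↔ RatR (toQ f) := Iff.rfl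

theorem toQ_theta (f : PowerSeries ℤ) :
    toQ (theta f) = cc ℚ X * PowerSeries.derivative ℚ (toQ f) := by
  ext n
  rw [coeff_toQ, coeff_theta, cc_apply, Polynomial.coe_X]
  cases n with
  | zero => simp
  | succ n =>
    rw [PowerSeries.coeff_succ_X_mul, PowerSeries.coeff_derivative, coeff_toQ]
    push_cast
    ring

theorem toQ_sec0 (q : ℕ) (f : PowerSeries ℤ) : toQ (sec0 q f) = sec0 q (toQ f) :=
  map_sec0 _ _ _

theorem toQ_nsmul (n : ℕ) (f : PowerSeries ℤ) : toQ (n • f) = cc ℚ (C (n : ℚ)) * toQ f := by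
  ext m
  rw [coeff_toQ, cc_apply, Polynomial.coe_C, PowerSeries.coeff_C_mul, coeff_toQ, map_nsmul,
    nsmul_eq_mul]
  push_cast
  rfl

theorem toQ_poly (p : ℤ[X]) : toQ (p : PowerSeries ℤ) = cc ℚ (p.map (Int.castRingHom ℚ)) := by
  ext m
  rw [coeff_toQ, cc_apply, Polynomial.coeff_coe, Polynomial.coeff_coe, Polynomial.coeff_map]
  simp

theorem toQ_dil {M : ℕ} (hM : M ≠ 0) (U : PowerSeries ℤ) :
    toQ (dil M U) = PowerSeries.expand M hM (toQ U) := by
  ext n
  rw [coeff_toQ, coeff_dil, PowerSeries.coeff_expand, coeff_toQ]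
  split_ifs <;> simp

theorem toQ_zero : toQ 0 = 0 := map_zero _

/-- The group of integer power series that are algebraic over `ℚ(x)`. -/
noncomputable def algGroup : AddSubgroup (PowerSeries ℤ) where
  carrier := {f | IsAlg f}
  add_mem' := by
    intro f g hf hg
    rw [Set.mem_ofPred_eq, isAlg_iff] at *
    rw [toQ_add]
    exact hf.add hg
  zero_mem' := by
    rw [Set.mem_ofPred_eq, isAlg_iff, toQ_zero]
    simpa using AlgR.base (j := cc ℚ) (0 : ℚ[X])
  neg_mem' := by
    intro f hf
    rw [Set.mem_ofPred_eq, isAlg_iff] at *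
    rw [toQ_neg]
    have := (AlgR.base (j := cc ℚ) (-1 : ℚ[X])).mul hf
    simpa using this

/-- The group of integer power series that are expansions of elements of `ℚ(x)`. -/
noncomputable def ratGroup : AddSubgroup (PowerSeries ℤ) where
  carrier := {f | IsRat f}
  add_mem' := by
    intro f g hf hg
    rw [Set.mem_ofPred_eq, isRat_iff] at *
    rw [toQ_add]
    exact hf.add hg
  zero_mem' := by
    rw [Set.mem_ofPred_eq, isRat_iff, toQ_zero]
    simpa using RatR.poly (0 : ℚ[X])
  neg_mem' := by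
    intro f hf
    rw [Set.mem_ofPred_eq, isRat_iff] at *
    rw [toQ_neg]
    have := (RatR.poly (-1 : ℚ[X])).mul hf
    simpa using this

/-- The group `F` of all algebraic integer power series with the Fermat property: the `p`-th
coefficient is divisible by `p` for all sufficiently large primes `p`. -/
noncomputable def fermatGroup : AddSubgroup (PowerSeries ℤ) where
  carrier := {f | IsAlg f ∧ ∃ N : ℕ, ∀ p : ℕ, p.Prime → N ≤ p → (p : ℤ) ∣ PowerSeries.coeff p f}
  add_mem' := by
    rintro f g ⟨hf, N, hN⟩ ⟨hg, N', hN'⟩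
    refine ⟨algGroup.add_mem hf hg, max N N', fun p hp hle => ?_⟩
    rw [map_add]
    exact dvd_add (hN p hp (le_trans (le_max_left _ _) hle))
      (hN' p hp (le_trans (le_max_right _ _) hle))
  zero_mem' := ⟨algGroup.zero_mem, 0, fun p _ _ => by simp⟩
  neg_mem' := by
    rintro f ⟨hf, N, hN⟩
    refine ⟨algGroup.neg_mem hf, N, fun p hp hle => ?_⟩
    rw [map_neg]
    exact (dvd_neg).2 (hN p hp hle)

/-- The group `D` of all series `x U'(x)` with `U` an algebraic integer power series. -/
noncomputable def dGroup : AddSubgroup (PowerSeries ℤ) where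
  carrier := {f | ∃ U : PowerSeries ℤ, IsAlg U ∧ f = theta U}
  add_mem' := by
    rintro f g ⟨U, hU, rfl⟩ ⟨V, hV, rfl⟩
    refine ⟨U + V, algGroup.add_mem hU hV, ?_⟩
    unfold theta
    rw [map_add, mul_add]
  zero_mem' := ⟨0, algGroup.zero_mem, by unfold theta; simp⟩
  neg_mem' := by
    rintro f ⟨U, hU, rfl⟩
    refine ⟨-U, algGroup.neg_mem hU, ?_⟩
    unfold theta
    rw [map_neg, mul_neg]

/-- The group `ℤ[x]` of integer polynomials inside the integer power series. -/
noncomputable def polyGroup : AddSubgroup (PowerSeries ℤ) where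
  carrier := {f | ∃ p : ℤ[X], f = (p : PowerSeries ℤ)}
  add_mem' := by
    rintro f g ⟨p, rfl⟩ ⟨q, rfl⟩
    exact ⟨p + q, by rw [Polynomial.coe_add]⟩
  zero_mem' := ⟨0, by rw [Polynomial.coe_zero]⟩
  neg_mem' := by
    rintro f ⟨p, rfl⟩
    exact ⟨-p, by rw [Polynomial.coe_neg]⟩

/-- The group `P` of all finite sums of series `U(x ^ M)` with `M ≥ 2` and `U` an algebraic integer
power series (the group generated by these series; the set of them is closed under negation). -/
noncomputable def pGroup : AddSubgroup (PowerSeries ℤ) :=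
  AddSubgroup.closure {f | ∃ M : ℕ, 2 ≤ M ∧ ∃ U : PowerSeries ℤ, IsAlg U ∧ f = dil M U}

end Pool.Agent.V11186.Fermat
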