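import Mathlib

namespace Pool.Agent.V11186.Fermat

theorem exists_equiv (A : Type) [AddCommGroup A] [Countable A]
    (htf : ∀ n : ℕ, n ≠ 0 → ∀ a : A, n • a = 0 → a = 0)
    (hdiv : ∀ p : ℕ, p.Prime → ∀ a : A, ∃ b : A, p • b = a)
    (e : ℕ → A) (he : LinearIndependent ℤ e) : Nonempty (A ≃+ (ℕ →₀ ℚ)) := by
  have : IsAddTorsionFree A := by
    refine ⟨fun n hn a b hab => ?_⟩
    have h1 : n • (a - b) = 0 := by
      rw [smul_sub]; exact sub_eq_zero.2 hab
    exact sub_eq_zero.1 (htf n hn _ h1)
  have hdiv' : ∀ n : ℕ, n ≠ 0 → ∀ a : A, ∃ b : A, n • b = a := by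
    intro n
    induction n using induction_on_primes with
    | zero => intro h; exact absurd rfl h
    | one => intro _ a; exact ⟨a, by simp⟩
    | prime_mul p m hp ih =>
      intro h a
      have hm : m ≠ 0 := by
        rintro rfl; simp at h
      obtain ⟨b, hb⟩ := hdiv p hp a
      obtain ⟨c, hc⟩ := ih hm b
      exact ⟨c, by rw [mul_smul, hc, hb]⟩
  -- the equivalence with the divisible hull
  have hbij : Function.Bijective (DivisibleHull.coeAddMonoidHom A) := by
    constructor
    · exact DivisibleHull.coe_injective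
    · intro x
      induction x using DivisibleHull.ind with
      | mk m s =>
        obtain ⟨b, hb⟩ := hdiv' s s.ne_zero m
        refine ⟨b, ?_⟩
        change DivisibleHull.mk b 1 = DivisibleHull.mk m s
        rw [DivisibleHull.mk_eq_mk_iff_smul_eq_smul]
        simp [hb]
  let E : A ≃+ DivisibleHull A := AddEquiv.ofBijective _ hbij
  have : Countable (DivisibleHull A) := Countable.of_equiv A E.toEquiv
  have hE : LinearIndependent ℤ (fun n => E (e n)) :=
    he.map' (E.toAddMonoidHom.toIntLinearMap) (LinearMap.ker_eq_bot.2 E.injective)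
  have hQ : LinearIndependent ℚ (fun n => E (e n)) :=
    (LinearIndependent.iff_fractionRing ℤ ℚ).1 hE
  let B := Module.Basis.ofVectorSpace ℚ (DivisibleHull A)
  have hinf : Infinite (Module.Basis.ofVectorSpaceIndex ℚ (DivisibleHull A)) := by
    by_contra hfin
    rw [not_infinite_iff_finite] at hfin
    have : Module.Finite ℚ (DivisibleHull A) := Module.Finite.of_basis B
    have := hQ.finite
    exact not_finite ℕ
  have hcount : Countable (Module.Basis.ofVectorSpaceIndex ℚ (DivisibleHull A)) := inferInstance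
  obtain ⟨f⟩ := nonempty_denumerable_iff.2 ⟨hcount, hinf⟩
  let g : (Module.Basis.ofVectorSpaceIndex ℚ (DivisibleHull A)) ≃ ℕ := Denumerable.eqv _
  exact ⟨E.trans ((B.reindex g).repr.toAddEquiv)⟩

end Pool.Agent.V11186.Fermat
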