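import Pool.Agent.V11186.Fermat.Defs
import Pool.Agent.V11186.Fermat.Grp

open Polynomial

namespace Pool.Agent.V11186.Fermat

/-- closure properties of a class of algebraic integer power series -/
structure Good (C : AddSubgroup (PowerSeries ℤ)) : Prop where
  alg : C ≤ algGroup
  poly : polyGroup ≤ C
  theta : ∀ f ∈ C, theta f ∈ C
  sec : ∀ q : ℕ, 0 < q → ∀ f ∈ C, sec0 q f ∈ C
  div : ∀ n : ℕ, n ≠ 0 → ∀ f, n • f ∈ C → f ∈ C
  geom : ∀ a : ℕ, 0 < a → PowerSeries.mk (fun n => (a : ℤ) ^ n) ∈ C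

theorem coeff_sec0 (q : ℕ) (f : PowerSeries ℤ) (n : ℕ) :
    PowerSeries.coeff n (sec0 q f) = if q ∣ n then PowerSeries.coeff n f else 0 := by
  simp [sec0]

theorem sec0_mem_p {q : ℕ} (hq : 2 ≤ q) {f : PowerSeries ℤ} (hf : f ∈ algGroup) :
    sec0 q f ∈ pGroup := by
  refine AddSubgroup.subset_closure ⟨q, hq, PowerSeries.mk (fun k => PowerSeries.coeff (q * k) f),
    ?_, ?_⟩
  · have h1 : AlgR (cc ℚ) (sec0 q (toQ f)) := AlgR.sec0 (by omega) hf
    rw [isAlg_iff]
    refine AlgR.of_expand (q := q) (by omega) ?_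
    convert h1 using 1
    ext n
    rw [PowerSeries.coeff_expand, coeff_toQ, sec0, PowerSeries.coeff_mk, PowerSeries.coeff_mk,
      coeff_toQ]
    split_ifs with h
    · rw [Nat.mul_div_cancel' h]
    · rfl
  · ext n
    rw [coeff_sec0, coeff_dil, PowerSeries.coeff_mk]
    split_ifs with h
    · rw [Nat.mul_div_cancel' h]
    · rfl

theorem p_le_alg : pGroup ≤ algGroup := by
  refine (AddSubgroup.closure_le _).2 ?_
  rintro f ⟨M, hM, U, hU, rfl⟩
  have h1 : AlgR (cc ℚ) (toQ (dil M U)) := by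
    rw [toQ_dil (by omega : M ≠ 0)]
    exact AlgR.expand _ hU
  exact h1

theorem p_support {f : PowerSeries ℤ} (hf : f ∈ pGroup) :
    ∃ K : ℕ, K ≠ 0 ∧ ∀ n : ℕ, Nat.Coprime n K → PowerSeries.coeff n f = 0 := by
  induction hf using AddSubgroup.closure_induction with
  | mem x hx =>
    obtain ⟨M, hM, U, hU, rfl⟩ := hx
    refine ⟨M, by omega, fun n hn => ?_⟩
    rw [coeff_dil, if_neg]
    intro hd
    have := Nat.Coprime.eq_one_of_dvd hn.symm hd
    omega
  | zero => exact ⟨1, one_ne_zero, fun n _ => by simp⟩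
  | add x y hx hy ihx ihy =>
    obtain ⟨K, hK, h⟩ := ihx
    obtain ⟨K', hK', h'⟩ := ihy
    refine ⟨K * K', mul_ne_zero hK hK', fun n hn => ?_⟩
    rw [map_add, h n (Nat.Coprime.coprime_mul_right_right hn),
      h' n (Nat.Coprime.coprime_mul_left_right hn), add_zero]
  | neg x hx ih =>
    obtain ⟨K, hK, h⟩ := ih
    exact ⟨K, hK, fun n hn => by rw [map_neg, h n hn, neg_zero]⟩

theorem d_le_alg : dGroup ≤ algGroup := by
  rintro f ⟨U, hU, rfl⟩
  have h1 : AlgR (cc ℚ) (toQ (theta U)) := by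
    rw [toQ_theta]
    exact (AlgR.base _).mul (AlgR.deriv hU)
  exact h1

theorem poly_le_alg : polyGroup ≤ algGroup := by
  rintro f ⟨p, rfl⟩
  have h1 : AlgR (cc ℚ) (toQ (p : PowerSeries ℤ)) := by
    rw [toQ_poly]
    exact AlgR.base _
  exact h1

theorem good_alg : Good algGroup where
  alg := le_rfl
  poly := poly_le_alg
  theta := fun f hf => d_le_alg ⟨f, hf, rfl⟩
  sec := fun q hq f hf => by
    have h1 : AlgR (cc ℚ) (toQ (sec0 q f)) := by
      rw [toQ_sec0]
      exact AlgR.sec0 hq hf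
    exact h1
  div := fun n hn f hf => by
    have h1 : AlgR (cc ℚ) (toQ (n • f)) := hf
    rw [toQ_nsmul] at h1
    have h0 : cc ℚ (C (n : ℚ)) ≠ 0 := by
      intro h
      have := cc_inj ℚ (h.trans (map_zero _).symm)
      rw [Polynomial.C_eq_zero, Nat.cast_eq_zero] at this
      exact hn this
    exact AlgR.of_mul h0 (AlgR.base _) h1
  geom := fun a ha => by
    have h1 : RatR (toQ (PowerSeries.mk (fun n => (a : ℤ) ^ n))) := by
      have h2 : toQ (PowerSeries.mk (fun n => (a : ℤ) ^ n))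
          = PowerSeries.rescale (a : ℚ) (PowerSeries.mk 1) := by
        ext n
        rw [coeff_toQ, PowerSeries.coeff_rescale]
        simp
      rw [h2]
      refine RatR.rescale (by exact_mod_cast ha.ne') ⟨1, 1 - X, ?_, ?_⟩
      · intro h
        have := congrArg (fun p => Polynomial.coeff p 0) h
        simp at this
      · rw [mul_comm, map_sub, map_one, cc_apply, Polynomial.coe_X]
        exact PowerSeries.mk_one_mul_one_sub_eq_one ℚ
    exact h1.alg

theorem good_rat : Good ratGroup where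
  alg := fun f hf => RatR.alg hf
  poly := by
    rintro f ⟨p, rfl⟩
    have h1 : RatR (toQ (p : PowerSeries ℤ)) := by
      rw [toQ_poly]
      exact RatR.poly _
    exact h1
  theta := fun f hf => by
    have h1 : RatR (toQ (theta f)) := by
      rw [toQ_theta]
      exact (RatR.poly _).mul (RatR.deriv hf)
    exact h1
  sec := fun q hq f hf => by
    have h1 : RatR (toQ (sec0 q f)) := by
      rw [toQ_sec0]
      exact RatR.sec0 hq hf
    exact h1
  div := fun n hn f hf => by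
    obtain ⟨p, q, hq, h⟩ := (hf : RatR (toQ (n • f)))
    rw [toQ_nsmul] at h
    refine ⟨p, q * C (n : ℚ), mul_ne_zero hq ?_, ?_⟩
    · rw [Ne, Polynomial.C_eq_zero, Nat.cast_eq_zero]
      exact hn
    · rw [← cc_apply, map_mul, mul_assoc]
      exact h
  geom := fun a ha => by
    have h1 : RatR (toQ (PowerSeries.mk (fun n => (a : ℤ) ^ n))) := by
      have h2 : toQ (PowerSeries.mk (fun n => (a : ℤ) ^ n))
          = PowerSeries.rescale (a : ℚ) (PowerSeries.mk 1) := by
        ext n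
        rw [coeff_toQ, PowerSeries.coeff_rescale]
        simp
      rw [h2]
      refine RatR.rescale (by exact_mod_cast ha.ne') ⟨1, 1 - X, ?_, ?_⟩
      · intro h
        have := congrArg (fun p => Polynomial.coeff p 0) h
        simp at this
      · rw [mul_comm, map_sub, map_one, cc_apply, Polynomial.coe_X]
        exact PowerSeries.mk_one_mul_one_sub_eq_one ℚ
    exact h1

/-- keep only the coefficients with index coprime to `K` -/
noncomputable def cop (K : ℕ) (f : PowerSeries ℤ) : PowerSeries ℤ :=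
  PowerSeries.mk (fun n => if Nat.Coprime n K then PowerSeries.coeff n f else 0)

theorem coeff_cop (K : ℕ) (f : PowerSeries ℤ) (n : ℕ) :
    PowerSeries.coeff n (cop K f) = if Nat.Coprime n K then PowerSeries.coeff n f else 0 := by
  simp [cop]

theorem cop_mem {C : AddSubgroup (PowerSeries ℤ)} (hC : Good C) {K : ℕ} (hK : K ≠ 0)
    {f : PowerSeries ℤ} (hf : f ∈ C) : cop K f ∈ C ∧ f - cop K f ∈ pGroup ⊓ C := by
  induction K using induction_on_primes with
  | zero => exact absurd rfl hK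
  | one =>
    have h1 : cop 1 f = f := by
      ext n
      rw [coeff_cop, if_pos (Nat.coprime_one_right n)]
    rw [h1, sub_self]
    exact ⟨hf, AddSubgroup.zero_mem _⟩
  | prime_mul q m hq ih =>
    have hm : m ≠ 0 := by
      rintro rfl; simp at hK
    obtain ⟨h1, h2⟩ := ih hm
    have h3 : cop (q * m) f = cop m f - sec0 q (cop m f) := by
      ext n
      rw [map_sub, coeff_cop, coeff_sec0, coeff_cop]
      by_cases hd : q ∣ n
      · have : ¬ Nat.Coprime n (q * m) := by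
          intro h
          have := Nat.Coprime.coprime_mul_right_right h
          have h4 := Nat.Coprime.eq_one_of_dvd this.symm hd
          exact hq.one_lt.ne' h4
        rw [if_neg this, if_pos hd, sub_self]
      · have h4 : Nat.Coprime n q := ((Nat.Prime.coprime_iff_not_dvd hq).2 hd).symm
        rw [if_neg hd, sub_zero]
        by_cases h5 : Nat.Coprime n m
        · rw [if_pos (Nat.Coprime.mul_right h4 h5), if_pos h5]
        · rw [if_neg (fun h6 => h5 (Nat.Coprime.coprime_mul_left_right h6)), if_neg h5]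
    rw [h3]
    refine ⟨C.sub_mem h1 (hC.sec q hq.pos _ h1), ?_⟩
    have h4 : f - (cop m f - sec0 q (cop m f)) = (f - cop m f) + sec0 q (cop m f) := by abel
    rw [h4]
    exact AddSubgroup.add_mem _ h2
      ⟨sec0_mem_p hq.two_le (hC.alg h1), hC.sec q hq.pos _ h1⟩

/-- the subgroup of relations -/
noncomputable def relGroup (C : AddSubgroup (PowerSeries ℤ)) : AddSubgroup (PowerSeries ℤ) :=
  (dGroup ⊓ C) ⊔ polyGroup ⊔ (pGroup ⊓ C)

theorem rel_le {C : AddSubgroup (PowerSeries ℤ)} (hC : Good C) :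
    relGroup C ≤ fermatGroup ⊓ C := by
  refine sup_le (sup_le ?_ ?_) ?_
  · rintro f ⟨⟨U, hU, rfl⟩, hfC⟩
    refine ⟨⟨d_le_alg ⟨U, hU, rfl⟩, 0, fun p _ _ => ?_⟩, hfC⟩
    rw [coeff_theta]
    exact dvd_mul_right _ _
  · rintro f ⟨p, rfl⟩
    refine ⟨⟨poly_le_alg ⟨p, rfl⟩, p.natDegree + 1, fun r _ hr => ?_⟩, hC.poly ⟨p, rfl⟩⟩
    rw [Polynomial.coeff_coe, Polynomial.coeff_eq_zero_of_natDegree_lt (by omega)]
    exact dvd_zero _
  · rintro f ⟨hf, hfC⟩
    refine ⟨⟨p_le_alg hf, ?_⟩, hfC⟩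
    obtain ⟨K, hK, h⟩ := p_support hf
    refine ⟨K + 1, fun p hp hle => ?_⟩
    rw [h p ((Nat.Prime.coprime_iff_not_dvd hp).2 (fun hd => ?_))]
    · exact dvd_zero _
    · have := Nat.le_of_dvd (Nat.pos_of_ne_zero hK) hd
      omega

theorem mem_rel {C : AddSubgroup (PowerSeries ℤ)} {f : PowerSeries ℤ} (h : f ∈ relGroup C) :
    ∃ U : PowerSeries ℤ, IsAlg U ∧ theta U ∈ C ∧ ∃ p : ℤ[X], ∃ g ∈ pGroup ⊓ C,
      f = theta U + (p : PowerSeries ℤ) + g := by
  obtain ⟨y, hy, g, hg, rfl⟩ := AddSubgroup.mem_sup.1 h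
  obtain ⟨d, hd, w, hw, rfl⟩ := AddSubgroup.mem_sup.1 hy
  obtain ⟨⟨U, hU, rfl⟩, hdC⟩ := hd
  obtain ⟨p, rfl⟩ := hw
  exact ⟨U, hU, hdC, p, g, hg, rfl⟩

theorem d_mem_rel {C : AddSubgroup (PowerSeries ℤ)} {f : PowerSeries ℤ} (h : f ∈ dGroup ⊓ C) :
    f ∈ relGroup C := (le_sup_left.trans le_sup_left : dGroup ⊓ C ≤ relGroup C) h

theorem p_mem_rel {C : AddSubgroup (PowerSeries ℤ)} {f : PowerSeries ℤ} (h : f ∈ pGroup ⊓ C) :
    f ∈ relGroup C := (le_sup_right : pGroup ⊓ C ≤ relGroup C) h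

theorem poly_mem_rel {C : AddSubgroup (PowerSeries ℤ)} {f : PowerSeries ℤ} (h : f ∈ polyGroup) :
    f ∈ relGroup C := (le_sup_right.trans le_sup_left : polyGroup ≤ relGroup C) h

/-- torsion-freeness -/
theorem rel_sat {C : AddSubgroup (PowerSeries ℤ)} (hC : Good C) {n : ℕ} (hn : n ≠ 0)
    {f : PowerSeries ℤ} (hf : f ∈ C) (h : n • f ∈ relGroup C) : f ∈ relGroup C := by
  obtain ⟨U, hU, hUC, p, g, hg, he⟩ := mem_rel h
  obtain ⟨K, hK, hK'⟩ := p_support hg.1
  have hnK : n * K ≠ 0 := mul_ne_zero hn hK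
  obtain ⟨h1, h2⟩ := cop_mem hC hnK hf
  obtain ⟨h3, -⟩ := cop_mem good_alg hnK hU
  set B := p.natDegree
  -- the truncated cop U divided by n
  let W : PowerSeries ℤ := PowerSeries.mk (fun m =>
    if Nat.Coprime m (n * K) ∧ B < m then PowerSeries.coeff m U / n else 0)
  have hcoef : ∀ m, Nat.Coprime m (n * K) → B < m →
      (n : ℤ) * PowerSeries.coeff m f = m * PowerSeries.coeff m U := by
    intro m hm hB
    have h4 := congrArg (PowerSeries.coeff m) he
    rw [map_nsmul, map_add, map_add, coeff_theta, Polynomial.coeff_coe,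
      Polynomial.coeff_eq_zero_of_natDegree_lt hB, add_zero,
      hK' m (Nat.Coprime.coprime_mul_left_right hm), add_zero, nsmul_eq_mul] at h4
    exact_mod_cast h4
  have hdvd : ∀ m, Nat.Coprime m (n * K) → B < m → (n : ℤ) ∣ PowerSeries.coeff m U := by
    intro m hm hB
    have h4 : (n : ℤ) ∣ m * PowerSeries.coeff m U := ⟨_, (hcoef m hm hB).symm⟩
    refine IsCoprime.dvd_of_dvd_mul_left ?_ h4
    exact (Nat.isCoprime_iff_coprime.2 (Nat.Coprime.coprime_mul_right_right hm)).symm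
  -- polynomial parts
  let pU : ℤ[X] := ∑ m ∈ Finset.range (B + 1), monomial m (PowerSeries.coeff m (cop (n * K) U))
  let pf : ℤ[X] := ∑ m ∈ Finset.range (B + 1), monomial m (PowerSeries.coeff m (cop (n * K) f))
  have hpc : ∀ (φ : ℕ → ℤ) (m : ℕ),
      (∑ k ∈ Finset.range (B + 1), monomial k (φ k) : ℤ[X]).coeff m
        = if m < B + 1 then φ m else 0 := by
    intro φ m
    rw [Polynomial.finsetSum_coeff]
    simp only [Polynomial.coeff_monomial, Finset.sum_ite_eq', Finset.mem_range]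
  have hW : IsAlg W := by
    refine good_alg.div n hn W ?_
    have h5 : n • W = cop (n * K) U - (pU : PowerSeries ℤ) := by
      ext m
      rw [map_nsmul, map_sub, Polynomial.coeff_coe, hpc, PowerSeries.coeff_mk]
      rw [nsmul_eq_mul]
      by_cases hB : B < m
      · rw [if_neg (by omega : ¬ m < B + 1), sub_zero, coeff_cop]
        by_cases hm : Nat.Coprime m (n * K)
        · rw [if_pos ⟨hm, hB⟩, if_pos hm]
          exact Int.mul_ediv_cancel' (hdvd m hm hB)
        · rw [if_neg (fun hh => hm hh.1), if_neg hm, mul_zero]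
      · rw [if_pos (by omega : m < B + 1), sub_self, if_neg (fun hh => hB hh.2), mul_zero]
    rw [h5]
    exact algGroup.sub_mem h3 (poly_le_alg ⟨pU, rfl⟩)
  have h6 : theta W = cop (n * K) f - (pf : PowerSeries ℤ) := by
    ext m
    rw [coeff_theta, map_sub, Polynomial.coeff_coe, hpc, PowerSeries.coeff_mk]
    by_cases hB : B < m
    · rw [if_neg (by omega : ¬ m < B + 1), sub_zero, coeff_cop]
      by_cases hm : Nat.Coprime m (n * K)
      · rw [if_pos ⟨hm, hB⟩, if_pos hm]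
        obtain ⟨c, hc⟩ := hdvd m hm hB
        have h7 := hcoef m hm hB
        have hn' : (n : ℤ) ≠ 0 := by exact_mod_cast hn
        rw [hc, Int.mul_ediv_cancel_left _ hn']
        rw [hc] at h7
        have h8 : (n : ℤ) * PowerSeries.coeff m f = n * (m * c) := by rw [h7]; ring
        exact (mul_left_cancel₀ hn' h8).symm
      · rw [if_neg (fun hh => hm hh.1), if_neg hm, mul_zero]
    · rw [if_pos (by omega : m < B + 1), sub_self, if_neg (fun hh => hB hh.2), mul_zero]
  have h9 : theta W ∈ C := by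
    rw [h6]
    exact C.sub_mem h1 (hC.poly ⟨pf, rfl⟩)
  have h10 : f = theta W + (pf : PowerSeries ℤ) + (f - cop (n * K) f) := by
    rw [h6]; abel
  rw [h10]
  exact AddSubgroup.add_mem _ (AddSubgroup.add_mem _ (d_mem_rel ⟨⟨W, hW, rfl⟩, h9⟩)
    (poly_mem_rel ⟨pf, rfl⟩)) (p_mem_rel h2)

/-- divisibility -/
theorem rel_div {C : AddSubgroup (PowerSeries ℤ)} (hC : Good C) {l : ℕ} (hl : l.Prime)
    {f : PowerSeries ℤ} (hf : f ∈ fermatGroup ⊓ C) :
    ∃ g ∈ fermatGroup ⊓ C, f - l • g ∈ relGroup C := by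
  obtain ⟨⟨hfA, N, hN⟩, hfC⟩ := hf
  have hs := hC.sec l hl.pos f hfC
  set f1 := f - sec0 l f with hf1
  have hf1C : f1 ∈ C := C.sub_mem hfC hs
  have hf1c : ∀ m, PowerSeries.coeff m f1 = if l ∣ m then 0 else PowerSeries.coeff m f := by
    intro m
    rw [hf1, map_sub, coeff_sec0]
    split_ifs <;> simp
  -- iterates of theta
  have hit : ∀ k, ∃ u ∈ C, ∀ m, PowerSeries.coeff m u = (m : ℤ) ^ k * PowerSeries.coeff m f1 := by
    intro k
    induction k with
    | zero => exact ⟨f1, hf1C, fun m => by simp⟩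
    | succ k ih =>
      obtain ⟨u, hu, hu'⟩ := ih
      refine ⟨theta u, hC.theta u hu, fun m => ?_⟩
      rw [coeff_theta, hu' m]
      ring
  obtain ⟨u, huC, hu⟩ := hit (l - 2)
  have htu : ∀ m, PowerSeries.coeff m (theta u) = (m : ℤ) ^ (l - 1) * PowerSeries.coeff m f1 := by
    intro m
    rw [coeff_theta, hu m]
    have : l - 1 = (l - 2) + 1 := by have := hl.two_le; omega
    rw [this]
    ring
  have hdv : ∀ m, (l : ℤ) ∣ PowerSeries.coeff m (f1 - theta u) := by
    intro m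
    rw [map_sub, htu m, hf1c m]
    split_ifs with hd
    · simp
    · have h1 : (m : ℤ) ^ (l - 1) ≡ 1 [ZMOD l] := by
        apply Int.ModEq.pow_card_sub_one_eq_one hl
        exact (Nat.isCoprime_iff_coprime.2 ((Nat.Prime.coprime_iff_not_dvd hl).2 hd)).symm
      have h2 : PowerSeries.coeff m f - (m : ℤ) ^ (l - 1) * PowerSeries.coeff m f
          = (1 - (m : ℤ) ^ (l - 1)) * PowerSeries.coeff m f := by ring
      rw [h2]
      exact Dvd.dvd.mul_right (Int.ModEq.dvd h1) _
  let g : PowerSeries ℤ := PowerSeries.mk (fun m => PowerSeries.coeff m (f1 - theta u) / l)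
  have hg : l • g = f1 - theta u := by
    ext m
    rw [map_nsmul, PowerSeries.coeff_mk, nsmul_eq_mul]
    exact Int.mul_ediv_cancel' (hdv m)
  have hgC : g ∈ C := by
    refine hC.div l hl.ne_zero g ?_
    rw [hg]
    exact C.sub_mem hf1C (hC.theta u huC)
  refine ⟨g, ⟨⟨hC.alg hgC, max N (l + 1), fun p hp hle => ?_⟩, hgC⟩, ?_⟩
  · have h1 := congrArg (PowerSeries.coeff p) hg
    rw [map_nsmul, nsmul_eq_mul, map_sub, htu p, hf1c p] at h1
    have h2 : (p : ℤ) ∣ PowerSeries.coeff p f := hN p hp (le_trans (le_max_left _ _) hle)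
    have h3 : (p : ℤ) ∣ l * PowerSeries.coeff p g := by
      change (l : ℤ) * PowerSeries.coeff p g = _ at h1
      rw [h1]
      split_ifs
      · simp
      · exact dvd_sub h2 (Dvd.dvd.mul_left h2 _)
    refine IsCoprime.dvd_of_dvd_mul_left ?_ h3
    refine Nat.isCoprime_iff_coprime.2 ?_
    refine (Nat.coprime_primes hp hl).2 ?_
    have := le_trans (le_max_right _ _) hle
    omega
  · rw [hg]
    have h4 : f - (f1 - theta u) = theta u + sec0 l f := by rw [hf1]; abel
    rw [h4]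
    exact AddSubgroup.add_mem _ (d_mem_rel ⟨⟨u, hC.alg huC, rfl⟩, hC.theta u huC⟩)
      (p_mem_rel ⟨sec0_mem_p hl.two_le (hC.alg hfC), hs⟩)

/-- the test series `∑ (a ^ n - a) x ^ n` -/
noncomputable def tst (a : ℕ) : PowerSeries ℤ := PowerSeries.mk (fun n => (a : ℤ) ^ n - a)

theorem tst_mem {C : AddSubgroup (PowerSeries ℤ)} (hC : Good C) {a : ℕ} (ha : 0 < a) :
    tst a ∈ fermatGroup ⊓ C := by
  have h1 : tst a = PowerSeries.mk (fun n => (a : ℤ) ^ n)
      - a • PowerSeries.mk (fun n => ((1 : ℕ) : ℤ) ^ n) := by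
    ext n
    rw [map_sub, map_nsmul, tst, PowerSeries.coeff_mk, PowerSeries.coeff_mk, PowerSeries.coeff_mk]
    simp
  have h2 : tst a ∈ C := by
    rw [h1]
    exact C.sub_mem (hC.geom a ha) (C.nsmul_mem (hC.geom 1 one_pos) a)
  refine ⟨⟨hC.alg h2, 0, fun p hp _ => ?_⟩, h2⟩
  rw [tst, PowerSeries.coeff_mk]
  haveI := Fact.mk hp
  have h3 : (((a : ℤ) ^ p - a : ℤ) : ZMod p) = 0 := by
    push_cast
    rw [ZMod.pow_card, sub_self]
  exact (ZMod.intCast_zmod_eq_zero_iff_dvd _ _).1 h3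

theorem sum_zero (s : Finset ℕ) (g : ℕ → ℤ) (Q : ℕ → Prop) (hQ : ∀ N, ∃ n, N ≤ n ∧ Q n)
    (h : ∀ n, Q n → ∑ i ∈ s, g i * (((i + 2 : ℕ) : ℤ) ^ n - ((i + 2 : ℕ) : ℤ)) = 0) :
    ∀ i ∈ s, g i = 0 := by
  classical
  by_contra hcon
  push Not at hcon
  obtain ⟨i0, hi0, hg0⟩ := hcon
  let t := s.filter (fun i => g i ≠ 0)
  have ht : t.Nonempty := ⟨i0, Finset.mem_filter.2 ⟨hi0, hg0⟩⟩
  set k := t.max' ht with hk
  have hkt : k ∈ t := Finset.max'_mem t ht
  have hks : k ∈ s := (Finset.mem_filter.1 hkt).1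
  have hgk : g k ≠ 0 := (Finset.mem_filter.1 hkt).2
  have hmax : ∀ i ∈ s, g i ≠ 0 → i ≤ k := fun i hi hgi =>
    Finset.le_max' t i (Finset.mem_filter.2 ⟨hi, hgi⟩)
  let a : ℝ := ((k + 2 : ℕ) : ℝ)
  have ha : (2 : ℝ) ≤ a := by
    simp only [a]; push_cast; have : (0 : ℝ) ≤ k := Nat.cast_nonneg k; linarith
  have hapos : 0 < a := by linarith
  let T : ℕ → ℝ := fun n => ∑ i ∈ s, (g i : ℝ) * ((((i + 2 : ℕ) : ℝ) / a) ^ n
    - ((i + 2 : ℕ) : ℝ) * (a⁻¹) ^ n)
  have hlim : Filter.Tendsto T Filter.atTop (nhds (∑ i ∈ s, if i = k then (g k : ℝ) else 0)) := by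
    refine tendsto_finsetSum _ (fun i hi => ?_)
    have hinv : Filter.Tendsto (fun n : ℕ => ((i + 2 : ℕ) : ℝ) * (a⁻¹) ^ n) Filter.atTop
        (nhds 0) := by
      have := (tendsto_pow_atTop_nhds_zero_of_lt_one (inv_nonneg.2 hapos.le)
        (inv_lt_one_of_one_lt₀ (by linarith : 1 < a))).const_mul ((i + 2 : ℕ) : ℝ)
      simpa using this
    by_cases hik : i = k
    · subst hik
      rw [if_pos rfl]
      have h1 : ((k + 2 : ℕ) : ℝ) / a = 1 := div_self hapos.ne'
      simp only [h1, one_pow]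
      have := ((tendsto_const_nhds (x := (1 : ℝ))).sub hinv).const_mul (g k : ℝ)
      simpa using this
    · rw [if_neg hik]
      by_cases hgi : g i = 0
      · simp [hgi]
      · have hlt : i < k := lt_of_le_of_ne (hmax i hi hgi) hik
        have h1 : ((i + 2 : ℕ) : ℝ) / a < 1 := by
          rw [div_lt_one hapos]
          simp only [a]
          exact_mod_cast (by omega : i + 2 < k + 2)
        have h2 : 0 ≤ ((i + 2 : ℕ) : ℝ) / a := by positivity
        have := ((tendsto_pow_atTop_nhds_zero_of_lt_one h2 h1).sub hinv).const_mul (g i : ℝ)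
        simpa using this
  have hT : ∀ n, Q n → T n = 0 := by
    intro n hn
    have h1 := h n hn
    have h2 : (∑ i ∈ s, (g i : ℝ) * ((((i + 2 : ℕ) : ℝ)) ^ n - ((i + 2 : ℕ) : ℝ))) = 0 := by
      exact_mod_cast h1
    have h3 : T n = (a⁻¹) ^ n * ∑ i ∈ s, (g i : ℝ) * ((((i + 2 : ℕ) : ℝ)) ^ n
        - ((i + 2 : ℕ) : ℝ)) := by
      simp only [T]
      rw [Finset.mul_sum]
      refine Finset.sum_congr rfl (fun i _ => ?_)
      rw [div_pow, inv_pow]
      field_simp
    rw [h3, h2, mul_zero]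
  have hsum : (∑ i ∈ s, if i = k then (g k : ℝ) else 0) = g k := by
    rw [Finset.sum_ite_eq' s k]
    simp [hks]
  rw [hsum] at hlim
  have hne : (g k : ℝ) ≠ 0 := by exact_mod_cast hgk
  have hev := hlim.eventually_ne hne
  obtain ⟨N, hN⟩ := Filter.eventually_atTop.1 hev
  obtain ⟨n, hn, hQn⟩ := hQ N
  exact hN n hn (hT n hQn)

theorem indep {C : AddSubgroup (PowerSeries ℤ)} (s : Finset ℕ) (g : ℕ → ℤ)
    (h : ∑ i ∈ s, g i • tst (i + 2) ∈ relGroup C) : ∀ i ∈ s, g i = 0 := by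
  obtain ⟨U, hU, hUC, p, w, hw, he⟩ := mem_rel h
  obtain ⟨K, hK, hK'⟩ := p_support hw.1
  set B := p.natDegree
  have hcoef : ∀ m, Nat.Coprime m K → B < m →
      (m : ℤ) ∣ ∑ i ∈ s, g i * (((i + 2 : ℕ) : ℤ) ^ m - ((i + 2 : ℕ) : ℤ)) := by
    intro m hm hB
    have h4 := congrArg (PowerSeries.coeff m) he
    rw [map_add, map_add, coeff_theta, Polynomial.coeff_coe,
      Polynomial.coeff_eq_zero_of_natDegree_lt hB, add_zero, hK' m hm, add_zero, map_sum] at h4
    refine ⟨PowerSeries.coeff m U, ?_⟩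
    rw [← h4]
    refine Finset.sum_congr rfl (fun i _ => ?_)
    rw [map_zsmul, tst, PowerSeries.coeff_mk, smul_eq_mul]
  refine sum_zero s g (fun q => q.Prime ∧ B + K < q) (fun N => ?_) ?_
  · obtain ⟨q, hq, hq'⟩ := Nat.exists_infinite_primes (N + B + K + 1)
    exact ⟨q, by omega, hq', by omega⟩
  · rintro q ⟨hq, hqB⟩
    set T : ℕ → ℤ := fun m => ∑ i ∈ s, g i * (((i + 2 : ℕ) : ℤ) ^ m - ((i + 2 : ℕ) : ℤ)) with hT
    change T q = 0
    obtain ⟨p', hp', hpp⟩ := Nat.exists_infinite_primes (B + K + 1 + (T q).natAbs)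
    have hcop : ∀ r : ℕ, r.Prime → K < r → Nat.Coprime r K := fun r hr hKr =>
      (Nat.Prime.coprime_iff_not_dvd hr).2 (fun hd => by
        have := Nat.le_of_dvd (Nat.pos_of_ne_zero hK) hd
        omega)
    have hm : Nat.Coprime (p' * q) K :=
      Nat.Coprime.mul_left (hcop p' hpp (by omega)) (hcop q hq (by omega))
    have hBm : B < p' * q := by
      have : q ≤ p' * q := Nat.le_mul_of_pos_left q hpp.pos
      omega
    have h1 : ((p' * q : ℕ) : ℤ) ∣ T (p' * q) := hcoef (p' * q) hm hBm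
    have h2 : (p' : ℤ) ∣ T (p' * q) := by
      refine dvd_trans ?_ h1
      push_cast
      exact dvd_mul_right _ _
    haveI := Fact.mk hpp
    have h3 : ((T (p' * q) : ℤ) : ZMod p') = ((T q : ℤ) : ZMod p') := by
      simp only [hT]
      push_cast
      refine Finset.sum_congr rfl (fun i _ => ?_)
      rw [mul_comm p' q, pow_mul, ZMod.pow_card]
    have h4 : ((T q : ℤ) : ZMod p') = 0 := by
      rw [← h3]
      exact (ZMod.intCast_zmod_eq_zero_iff_dvd _ _).2 h2
    have h5 : (p' : ℤ) ∣ T q := (ZMod.intCast_zmod_eq_zero_iff_dvd _ _).1 h4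
    by_contra hne
    have h6 := Int.natAbs_dvd_natAbs.2 h5
    rw [Int.natAbs_natCast] at h6
    have h7 := Nat.le_of_dvd (Int.natAbs_pos.2 hne) h6
    omega

theorem countable_alg : Countable algGroup := by
  have h1 : Set.Countable {f : PowerSeries ℚ | AlgR (cc ℚ) f} := by
    letI : Algebra ℚ[X] (PowerSeries ℚ) := (cc ℚ).toAlgebra
    haveI : FaithfulSMul ℚ[X] (PowerSeries ℚ) :=
      (faithfulSMul_iff_algebraMap_injective _ _).2 (cc_inj ℚ)
    haveI : Countable ℚ[X] := by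
      rw [← Cardinal.mk_le_aleph0_iff]
      refine Polynomial.cardinalMk_le_max.trans (max_le ?_ le_rfl)
      exact Cardinal.mk_le_aleph0_iff.2 inferInstance
    have := Algebraic.countable ℚ[X] (PowerSeries ℚ)
    exact this
  have h2 : Set.Countable {f : PowerSeries ℤ | IsAlg f} :=
    Set.MapsTo.countable_of_injOn (f := toQ) (fun f hf => hf) toQ_inj.injOn h1
  exact h2.to_subtype

/-- The general structure theorem. -/
theorem quotient_main {C : AddSubgroup (PowerSeries ℤ)} (hC : Good C) :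
    relGroup C ≤ fermatGroup ⊓ C ∧
    Nonempty ((↥(fermatGroup ⊓ C) ⧸ (relGroup C).addSubgroupOf (fermatGroup ⊓ C)) ≃+
      (ℕ →₀ ℚ)) := by
  refine ⟨rel_le hC, ?_⟩
  have hcountable : Countable ↥(fermatGroup ⊓ C) := by
    haveI := countable_alg
    have hle : fermatGroup ⊓ C ≤ algGroup := fun f hf => hC.alg hf.2
    exact (AddSubgroup.inclusion_injective hle).countable
  haveI : Countable (↥(fermatGroup ⊓ C) ⧸ (relGroup C).addSubgroupOf (fermatGroup ⊓ C)) :=
    (QuotientAddGroup.mk_surjective).countable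
  refine exists_equiv _ ?_ ?_
    (fun k => QuotientAddGroup.mk ⟨tst (k + 2), tst_mem hC (by omega)⟩) ?_
  · intro n hn a ha
    obtain ⟨⟨f, hf⟩, rfl⟩ := QuotientAddGroup.mk_surjective a
    rw [← QuotientAddGroup.mk_nsmul, QuotientAddGroup.eq_zero_iff,
      AddSubgroup.mem_addSubgroupOf] at ha
    rw [QuotientAddGroup.eq_zero_iff, AddSubgroup.mem_addSubgroupOf]
    exact rel_sat hC hn hf.2 ha
  · intro l hl a
    obtain ⟨⟨f, hf⟩, rfl⟩ := QuotientAddGroup.mk_surjective a
    obtain ⟨g, hg, h⟩ := rel_div hC hl hf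
    refine ⟨QuotientAddGroup.mk ⟨g, hg⟩, ?_⟩
    rw [← QuotientAddGroup.mk_nsmul, QuotientAddGroup.eq, AddSubgroup.mem_addSubgroupOf]
    have h2 : ((-(l • (⟨g, hg⟩ : ↥(fermatGroup ⊓ C))) + ⟨f, hf⟩ : ↥(fermatGroup ⊓ C)) :
        PowerSeries ℤ) = f - l • g := by
      push_cast
      abel
    rw [h2]
    exact h
  · rw [linearIndependent_iff']
    intro s g h i hi
    refine indep (C := C) s g ?_ i hi
    have h1 : ∑ i ∈ s, g i • (QuotientAddGroup.mk
        (⟨tst (i + 2), tst_mem hC (by omega)⟩ : ↥(fermatGroup ⊓ C)) :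
        ↥(fermatGroup ⊓ C) ⧸ (relGroup C).addSubgroupOf (fermatGroup ⊓ C))
        = QuotientAddGroup.mk (∑ i ∈ s, g i •
          (⟨tst (i + 2), tst_mem hC (by omega)⟩ : ↥(fermatGroup ⊓ C))) := by
      rw [← QuotientAddGroup.coe_mk', map_sum]
      rfl
    rw [h1, QuotientAddGroup.eq_zero_iff, AddSubgroup.mem_addSubgroupOf] at h
    simpa using h

end Pool.Agent.V11186.Fermat
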